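import Pool.Agent.Helper927.DistD.Final
import Pool.Agent.Helper927.Dist.Stmt

set_option autoImplicit false

universe u

namespace Pool.Agent.Results.MP_14cded_al.Classification

open Pool.Agent.Dist14

/-- Complete classification: a ring is admissible (every right module is distributive over its
endomorphism ring) if and only if it is a finite direct product of artinian chain rings. -/
theorem result :
    ∀ (A : Type u) [Ring A], Admissible A ↔ IsFiniteProductOfArtinianChainRings A :=
  fun A _ => Pool.Agent.Dist14D.classification A

end Pool.Agent.Results.MP_14cded_al.Classification
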